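import Pool.Agent.TH95.SD.Final
import Pool.Agent.TH95.SD.Tors

/-!
A torsion-free group acting freely and cocompactly on a three-dimensional CAT(0) cube complex
(modelled by its 1-skeleton, a median graph) with a finitely presented subgroup whose Dehn function
is super-exponential.
-/

set_option autoImplicit false

namespace Pool.Agent.Results.MP_32d448_al.SuperexpDehnDim3

/-- `G` acts, with trivial vertex stabilizers and with finitely many orbits of vertices, by
automorphisms, on a nonempty connected locally finite median graph which contains no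
`4`-dimensional cube. (A connected graph is
median if every three vertices have exactly one common median. By a theorem of Chepoi, median
graphs are exactly the 1-skeleta of CAT(0) cube complexes; the cube complex of a median graph
without `4`-dimensional cubes has dimension at most three.) -/
def ActsOnMedian3 (G : Type) [Group G] : Prop :=
  ∃ (V : Type) (_ : MulAction G V) (Γ : SimpleGraph V),
    Nonempty V ∧ Γ.Connected ∧
    (∀ v : V, (Γ.neighborSet v).Finite) ∧
    (∀ x y z : V, ∃! m : V,
        Γ.dist x m + Γ.dist m y = Γ.dist x y ∧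
        Γ.dist y m + Γ.dist m z = Γ.dist y z ∧
        Γ.dist x m + Γ.dist m z = Γ.dist x z) ∧
    (∀ (g : G) (u v : V), Γ.Adj u v → Γ.Adj (g • u) (g • v)) ∧
    (∀ (g : G) (v : V), g • v = v → g = 1) ∧
    (∃ S : Finset V, ∀ v : V, ∃ g : G, ∃ s ∈ S, g • s = v) ∧
    ¬ ∃ q : (Fin 4 → Bool) → V, Function.Injective q ∧
      ∀ (x : Fin 4 → Bool) (i : Fin 4), Γ.Adj (q x) (q (Function.update x i (!x i)))

/-- `w` is a product of at most `N` conjugates of relators and inverses of relators. -/
def IsProd {m : ℕ} (rels : Finset (FreeGroup (Fin m))) (N : ℕ) (w : FreeGroup (Fin m)) : Prop :=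
  ∃ l : List (FreeGroup (Fin m) × FreeGroup (Fin m)), l.length ≤ N ∧
    (∀ p ∈ l, p.2 ∈ rels ∨ p.2⁻¹ ∈ rels) ∧
    w = (l.map (fun p : FreeGroup (Fin m) × FreeGroup (Fin m) => p.1 * p.2 * p.1⁻¹)).prod

/-- The Dehn function of the finite presentation with generators `Fin m` and relators `rels`: the
least `N` such that every word `L` of length at most `n` in the generators and their inverses that
represents the identity is a product of at most `N` conjugates of relators and inverses of
relators. -/
noncomputable def dehn {m : ℕ} (rels : Finset (FreeGroup (Fin m))) (n : ℕ) : ℕ :=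
  sInf {N : ℕ | ∀ L : List (Fin m × Bool), L.length ≤ n →
    (PresentedGroup.mk (↑rels : Set (FreeGroup (Fin m))) (FreeGroup.mk L)) = 1 →
    IsProd rels N (FreeGroup.mk L)}

/-- `f ⪯ g`: there is `C > 0` with `f n ≤ C * g (C n + C) + C n + C` for all `n`. -/
def Pre (f g : ℕ → ℝ) : Prop :=
  ∃ C : ℕ, 0 < C ∧ ∀ n : ℕ, f n ≤ C * g (C * n + C) + C * n + C

theorem isProd_of_mem {m : ℕ} (rels : Finset (FreeGroup (Fin m))) (w : FreeGroup (Fin m))
    (hw : w ∈ Subgroup.normalClosure (↑rels : Set (FreeGroup (Fin m)))) :
    ∃ N, IsProd rels N w := by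
  unfold Subgroup.normalClosure at hw
  induction hw using Subgroup.closure_induction with
  | mem x hx =>
    obtain ⟨r, hr, hc⟩ := Group.mem_conjugatesOfSet_iff.mp hx
    obtain ⟨c, hc⟩ := isConj_iff.mp hc
    refine ⟨1, [(c, r)], by simp, ?_, ?_⟩
    · intro p hp
      rw [List.mem_singleton] at hp
      rw [hp]
      exact Or.inl hr
    · simp [hc]
  | one => exact ⟨0, [], by simp, by simp, by simp⟩
  | mul x y _ _ hx hy =>
    obtain ⟨N1, l1, h1, h2, h3⟩ := hx
    obtain ⟨N2, l2, k1, k2, k3⟩ := hy
    refine ⟨N1 + N2, l1 ++ l2, ?_, ?_, ?_⟩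
    · rw [List.length_append]
      omega
    · intro p hp
      rcases List.mem_append.mp hp with hp | hp
      · exact h2 p hp
      · exact k2 p hp
    · rw [List.map_append, List.prod_append, ← h3, ← k3]
  | inv x _ hx =>
    obtain ⟨N1, l1, h1, h2, h3⟩ := hx
    refine ⟨N1, (l1.map (fun p => (p.1, p.2⁻¹))).reverse, ?_, ?_, ?_⟩
    · rw [List.length_reverse, List.length_map]
      exact h1
    · intro p hp
      rw [List.mem_reverse, List.mem_map] at hp
      obtain ⟨q, hq, rfl⟩ := hp
      rcases h2 q hq with h | h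
      · right
        simpa using h
      · left
        exact h
    · rw [h3, List.prod_inv_reverse, List.map_reverse, List.map_map, List.map_map]
      congr 2
      apply List.map_congr_left
      intro p _
      simp [mul_assoc]

theorem isProd_mono {m : ℕ} {rels : Finset (FreeGroup (Fin m))} {N N' : ℕ} (h : N ≤ N')
    {w : FreeGroup (Fin m)} (hw : IsProd rels N w) : IsProd rels N' w := by
  obtain ⟨l, h1, h2⟩ := hw
  exact ⟨l, h1.trans h, h2⟩

/-- the Dehn function is attained -/
theorem dehn_spec {m : ℕ} (rels : Finset (FreeGroup (Fin m))) (n : ℕ) :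
    ∀ L : List (Fin m × Bool), L.length ≤ n →
      (PresentedGroup.mk (↑rels : Set (FreeGroup (Fin m))) (FreeGroup.mk L)) = 1 →
      IsProd rels (dehn rels n) (FreeGroup.mk L) := by
  have hne : {N : ℕ | ∀ L : List (Fin m × Bool), L.length ≤ n →
      (PresentedGroup.mk (↑rels : Set (FreeGroup (Fin m))) (FreeGroup.mk L)) = 1 →
      IsProd rels N (FreeGroup.mk L)}.Nonempty := by
    classical
    have hfin : {L : List (Fin m × Bool) | L.length ≤ n}.Finite := List.finite_length_le _ n
    have hex : ∀ L : List (Fin m × Bool), ∃ N,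
        (PresentedGroup.mk (↑rels : Set (FreeGroup (Fin m))) (FreeGroup.mk L)) = 1 →
        IsProd rels N (FreeGroup.mk L) := by
      intro L
      by_cases h : (PresentedGroup.mk (↑rels : Set (FreeGroup (Fin m))) (FreeGroup.mk L)) = 1
      · obtain ⟨N, hN⟩ := isProd_of_mem rels _ (PresentedGroup.mk_eq_one_iff.mp h)
        exact ⟨N, fun _ => hN⟩
      · exact ⟨0, fun h' => absurd h' h⟩
    choose F hF using hex
    refine ⟨hfin.toFinset.sup F, fun L hL h => ?_⟩
    exact isProd_mono (Finset.le_sup (f := F) (hfin.mem_toFinset.mpr hL)) (hF L h)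
  exact Nat.sInf_mem hne

open Pool.Agent.TH95 in
/-- the group has no torsion -/
theorem pp_torsion_free (g : AG goodx × FreeGroup Lx) (n : ℕ) (hn : 0 < n) (h : g ^ n = 1) :
    g = 1 := by
  refine Prod.ext (VH.torsion_free (ripsVH goodx) ?_ g.1 n hn (congrArg Prod.fst h)) ?_
  · rintro ⟨x, b⟩ hx
    have := congrArg Prod.snd hx
    cases b
    · exact Bool.noConfusion (show true = false from this)
    · exact Bool.noConfusion (show false = true from this)
  · have h2 : g.2 ^ n = 1 := congrArg Prod.snd h
    exact (pow_eq_one_iff_left hn.ne').mp h2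

open Pool.Agent.TH95 in
/-- There is a torsion-free group `G` acting, freely on the vertices and with finitely many orbits,
on a locally finite median graph without `4`-dimensional cubes, containing a free abelian subgroup
of rank three, and a finitely presented subgroup `H` of `G` whose Dehn function is
super-exponential; indeed it is at least `fib (fib (n + 1) + 1)` at `C (n + 1) ^ 3`. -/
theorem result :
    ∃ (G : Type) (_ : Group G), ActsOnMedian3 G ∧
      (∀ (g : G) (n : ℕ), 0 < n → g ^ n = 1 → g = 1) ∧
      (∃ f : Multiplicative (Fin 3 → ℤ) →* G, Function.Injective f) ∧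
      ∃ (H : Subgroup G) (m : ℕ) (rels : Finset (FreeGroup (Fin m))),
        Nonempty (PresentedGroup (↑rels : Set (FreeGroup (Fin m))) ≃* ↥H) ∧
        ¬ Pre (fun n => (dehn rels n : ℝ)) (fun n => Real.exp n) ∧
        ∃ C : ℕ, ∀ n : ℕ, Nat.fib (Nat.fib (n + 1) + 1) ≤ dehn rels (C * (n + 1) ^ 3) := by
  classical
  have hfinX : Finite (HD Lx) := inferInstance
  refine ⟨AG goodx × FreeGroup Lx, inferInstance, geom3 (ripsVH goodx), pp_torsion_free,
    ⟨zzz, zzz_inj⟩, pp.range, ?_⟩
  obtain ⟨R, hR1, hR2, C, hC⟩ := main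
  -- the letters
  obtain ⟨m, ⟨e⟩⟩ := Finite.exists_equiv_fin (Lt Lx Kx)
  let E : FreeGroup (Lt Lx Kx) ≃* FreeGroup (Fin m) := FreeGroup.freeGroupCongr e
  let rels : Finset (FreeGroup (Fin m)) := (hR1.image E).toFinset
  have hrels : (↑rels : Set (FreeGroup (Fin m))) = E '' R := Set.Finite.coe_toFinset _
  have hker : (pp.comp E.symm.toMonoidHom).ker =
      Subgroup.normalClosure (↑rels : Set (FreeGroup (Fin m))) := by
    rw [hrels]
    have h1 : (pp.comp E.symm.toMonoidHom).ker = pp.ker.map E.toMonoidHom := by
      ext w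
      rw [MonoidHom.mem_ker, Subgroup.mem_map]
      constructor
      · intro h
        exact ⟨E.symm w, h, by simp⟩
      · rintro ⟨v, hv, rfl⟩
        have : pp v = 1 := hv
        simpa using this
    have h2 := Subgroup.map_normalClosure R E.toMonoidHom E.surjective
    rw [h1, hR2, h2]
    rfl
  have hrange : (pp.comp E.symm.toMonoidHom).range = pp.range := by
    ext g
    constructor
    · rintro ⟨w, rfl⟩
      exact ⟨E.symm w, rfl⟩
    · rintro ⟨w, rfl⟩
      exact ⟨E w, by simp⟩
  have hmk : ∀ w : FreeGroup (Lt Lx Kx), pp w = 1 →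
      PresentedGroup.mk (↑rels : Set (FreeGroup (Fin m))) (E w) = 1 := by
    intro w hw
    rw [PresentedGroup.mk_eq_one_iff, ← hker, MonoidHom.mem_ker]
    simpa using hw
  have hpr : ∀ (w : FreeGroup (Lt Lx Kx)) (N : ℕ), IsProd rels N (E w) → IsPr R N w := by
    rintro w N ⟨l, h1, h2, h3⟩
    have hm : ∀ x : FreeGroup (Fin m), x ∈ rels → E.symm x ∈ R := by
      intro x hx
      have : x ∈ E '' R := hrels ▸ (Finset.mem_coe.mpr hx)
      obtain ⟨y, hy, rfl⟩ := this
      simpa using hy
    refine ⟨l.map (fun p => (E.symm p.1, E.symm p.2)), by simpa using h1, ?_, ?_⟩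
    · intro p hp
      obtain ⟨q, hq, rfl⟩ := List.mem_map.mp hp
      rcases h2 q hq with h | h
      · exact Or.inl (hm _ h)
      · right
        have := hm _ h
        rwa [map_inv] at this
    · have h4 := congrArg E.symm h3
      rw [MulEquiv.symm_apply_apply, map_list_prod, List.map_map] at h4
      rw [h4, List.map_map]
      congr 1
      apply List.map_congr_left
      intro p _
      simp
  have hdehn : ∀ n : ℕ, Nat.fib (Nat.fib (n + 1) + 1) ≤ dehn rels (C * (n + 1) ^ 3) := by
    intro n
    obtain ⟨w, ⟨L, hL1, hL2⟩, h2, h3⟩ := hC n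
    apply h3
    apply hpr
    have h4 : E w = FreeGroup.mk (L.map (fun p => (e p.1, p.2))) := by
      rw [← hL2]
      rfl
    rw [h4]
    apply dehn_spec
    · simpa using hL1
    · rw [← h4]
      exact hmk w h2
  refine ⟨m, rels, ?_, ?_, C, hdehn⟩
  · have e1 := QuotientGroup.quotientKerEquivRange (pp.comp E.symm.toMonoidHom)
    have e2 := QuotientGroup.quotientMulEquivOfEq hker
    exact ⟨e2.symm.trans (e1.trans (MulEquiv.subgroupCongr hrange))⟩
  · exact superexp_of_fib (dehn rels) C hdehn

end Pool.Agent.Results.MP_32d448_al.SuperexpDehnDim3
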